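import Pool.Agent.W423.QC.Torus

/-!
# Pointed elements in positive bases
-/

set_option autoImplicit false

namespace Pool.Agent.W423.QC

open LaurentPolynomial

universe u

variable {F : Type u} [DivisionRing F] [Algebra Coef F] {b c : ℕ} {X : ℤ → F} {B : Set F}

lemma uniq (hB : IsPositiveBasis X B) {g e : F →₀ Coef} (hg : (g.support : Set F) ⊆ B)
    (he : (e.support : Set F) ⊆ B)
    (h : g.sum (fun x f => f • x) = e.sum (fun x f => f • x)) : g = e := by
  have h1 : LinearIndepOn Coef id B := hB.indep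
  rw [linearIndepOn_iff] at h1
  have h2 := h1 (g - e) (Submodule.sub_mem _ ((Finsupp.mem_supported _ _).mpr hg)
    ((Finsupp.mem_supported _ _).mpr he))
  rw [map_sub, Finsupp.linearCombination_apply, Finsupp.linearCombination_apply] at h2
  exact sub_eq_zero.mp (h2 (sub_eq_zero.mpr h))

lemma sum_single_smul {ι : Type*} (s : Finset ι) (x : ι → F) (f : ι → Coef) :
    (∑ i ∈ s, Finsupp.single (x i) (f i)).sum (fun y g => g • y) = ∑ i ∈ s, f i • x i := by
  classical
  rw [← Finsupp.sum_finsetSum_index (fun a => zero_smul _ a) (fun a f g => add_smul f g a)]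
  exact Finset.sum_congr rfl fun i _ => Finsupp.sum_single_index (zero_smul _ _)

lemma bar_rep (h : IsClusterSeq b c X) {y : F} (hy : BarInvariant X y) :
    ∃ f : ℤ × ℤ →₀ Coef, y = LL X f ∧ ∀ m, invert (f m) = f m := by
  obtain ⟨e, h1, h2⟩ := hy
  let f : ℤ × ℤ →₀ Coef := Finsupp.onFinset e.support (fun a => e a * T (-(a.1 * a.2))) (by
    intro a ha
    rw [Finsupp.mem_support_iff]
    intro h0
    rw [h0, zero_mul] at ha
    exact ha rfl)
  let f' : ℤ × ℤ →₀ Coef := Finsupp.onFinset e.support (fun a => invert (e a) * T (a.1 * a.2)) (by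
    intro a ha
    rw [Finsupp.mem_support_iff]
    intro h0
    rw [h0, map_zero, zero_mul] at ha
    exact ha rfl)
  have hf : y = LL X f := by
    have hs : LL X f = ∑ a ∈ e.support, (e a * T (-(a.1 * a.2))) • xm X a := by
      rw [LL, Finsupp.linearCombination_apply]
      exact Finsupp.onFinset_sum _ (fun a => zero_smul _ _)
    rw [h1, hs]
    refine Finset.sum_congr rfl fun a _ => ?_
    rw [xm_eq, smul_smul, mul_assoc, ← T_add, neg_add_cancel, T_zero, mul_one]
  have hf' : y = LL X f' := by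
    have hs : LL X f' = ∑ a ∈ e.support, (invert (e a) * T (a.1 * a.2)) • xm X a := by
      rw [LL, Finsupp.linearCombination_apply]
      exact Finsupp.onFinset_sum _ (fun a => zero_smul _ _)
    rw [h2, hs]
    refine Finset.sum_congr rfl fun a _ => ?_
    have hq := qzpow h.ne_one h.ne_two h.qcomm a.1 a.2
    have hr : (2 : ℤ) * a.1 * a.2 = a.1 * a.2 + a.1 * a.2 := by ring
    rw [hr] at hq
    rw [xm_eq, smul_smul, mul_assoc, ← T_add]
    simp only
    rw [hq, smul_smul]
  have hff : f = f' := LL_inj h (hf.symm.trans hf')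
  refine ⟨f, hf, fun m => ?_⟩
  have h3 : e m * T (-(m.1 * m.2)) = invert (e m) * T (m.1 * m.2) := by
    have := DFunLike.congr_fun hff m
    simpa [f, f'] using this
  show invert (e m * T (-(m.1 * m.2))) = e m * T (-(m.1 * m.2))
  rw [map_mul, invert_T, neg_neg, h3]

lemma nonneg_rep (h : IsClusterSeq b c X) (hB : IsPositiveBasis X B) {y : F} (hy : y ∈ B)
    {f : ℤ × ℤ →₀ Coef} (hf : y = LL X f) (m : ℤ × ℤ) : NonNeg (f m) := by
  classical
  by_cases hm : f m = 0
  · rw [hm]; intro k; simp
  -- a large exponent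
  obtain ⟨N, hN⟩ : ∃ N : ℕ, ∀ a ∈ f.support, 0 ≤ a.1 + N ∧ 0 ≤ a.2 + N := by
    refine ⟨∑ a ∈ f.support, (a.1.natAbs + a.2.natAbs), fun a ha => ?_⟩
    have h1 := Finset.single_le_sum (f := fun a : ℤ × ℤ => a.1.natAbs + a.2.natAbs)
      (fun _ _ => Nat.zero_le _) ha
    constructor <;> omega
  have hmN : mon X 1 (N : ℤ) (N : ℤ) ∈ B := hB.monomials 1 N N
  obtain ⟨e, he1, he2, he3⟩ := hB.pos y hy _ hmN
  have hprod : y * mon X 1 (N : ℤ) (N : ℤ) =
      ∑ a ∈ f.support, (f a * T (a.2 * N - a.1 * N)) • xm X (a + ((N : ℤ), (N : ℤ))) := by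
    rw [hf, LL, Finsupp.linearCombination_apply, Finsupp.sum, Finset.sum_mul]
    refine Finset.sum_congr rfl fun a _ => ?_
    have : mon X 1 (N : ℤ) (N : ℤ) = xm X ((N : ℤ), (N : ℤ)) := rfl
    rw [this, smul_mul_assoc, xm_mul h, smul_smul]
  have hmem : ∀ a ∈ f.support, xm X (a + ((N : ℤ), (N : ℤ))) ∈ B := by
    intro a ha
    obtain ⟨h1, h2⟩ := hN a ha
    have := hB.monomials 1 (a.1 + N).toNat (a.2 + N).toNat
    rw [Int.toNat_of_nonneg h1, Int.toNat_of_nonneg h2] at this
    exact this
  have hinj : Function.Injective (fun a : ℤ × ℤ => xm X (a + ((N : ℤ), (N : ℤ)))) := by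
    intro a a' haa
    exact add_right_cancel ((xm_indep h).injective haa)
  have heq := uniq hB (g := ∑ a ∈ f.support,
      Finsupp.single (xm X (a + ((N : ℤ), (N : ℤ)))) (f a * T (a.2 * N - a.1 * N))) (e := e) (by
      intro x hx
      have h1 := Finsupp.support_finsetSum hx
      simp only [Finset.mem_biUnion] at h1
      obtain ⟨a, ha, hxa⟩ := h1
      have h2 := Finsupp.support_single_subset hxa
      rw [Finset.mem_singleton] at h2
      rw [h2]
      exact hmem a ha) he1 (by rw [sum_single_smul, ← hprod, he3])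
  have hval : e (xm X (m + ((N : ℤ), (N : ℤ)))) = f m * T (m.2 * N - m.1 * N) := by
    rw [← heq, Finsupp.finsetSum_apply]
    rw [Finset.sum_eq_single m]
    · rw [Finsupp.single_eq_same]
    · intro a _ hne
      rw [Finsupp.single_eq_of_ne]
      intro h0
      exact hne (hinj h0.symm)
    · intro h0
      exact absurd (Finsupp.mem_support_iff.mpr hm) h0
  have := he2 (xm X (m + ((N : ℤ), (N : ℤ))))
  rw [hval] at this
  exact nonneg_mul_T this

/-- pointed at `a` -/
def PtN (b c : ℕ) (X : ℤ → F) (a : ℤ × ℤ) (y : F) : Prop :=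
  ∃ z ∈ Submodule.span Coef (xm X '' coneS b c a), y = xm X (-a) + z

lemma exists_pointed (h : IsClusterSeq b c X) (hb : 1 ≤ b) (hc : 1 ≤ c)
    (hB : IsPositiveBasis X B) (a : ℤ × ℤ) :
    ∃ y ∈ B, PtN b c X a y ∧ ∃ (k : ℤ) (e : F →₀ Coef), (e.support : Set F) ⊆ B ∧
      stm X a = e.sum (fun x f => f • x) ∧ e y = T k := by
  classical
  obtain ⟨k0, f, hf1, hf2, hf3⟩ := (Pt_stm h a).rep hb hc
  obtain ⟨e, he1, he2, he3⟩ := hB.pos _ (hB.monomials 2 (-a.2).toNat a.1.toNat) _
    (hB.monomials 0 a.2.toNat (-a.1).toNat)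
  have he3' : stm X a = e.sum (fun x f => f • x) := he3
  have hrep : ∀ x ∈ B, ∃ φ : ℤ × ℤ →₀ Coef, x = LL X φ ∧ (∀ m, invert (φ m) = φ m) ∧
      ∀ m, NonNeg (φ m) := by
    intro x hx
    obtain ⟨φ, h1, h2⟩ := bar_rep h (hB.bar x hx)
    exact ⟨φ, h1, h2, nonneg_rep h hB hx h1⟩
  choose! φ hφ1 hφ2 hφ3 using hrep
  have hsum : f = ∑ x ∈ e.support, e x • φ x := by
    apply LL_inj h
    rw [← hf1, he3', map_sum, Finsupp.sum]
    refine Finset.sum_congr rfl fun x hx => ?_
    rw [map_smul, ← hφ1 x (he1 hx)]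
  have heps : ∀ m, eps (f m) = ∑ x ∈ e.support, eps (e x) * eps (φ x m) := by
    intro m
    conv_lhs => rw [hsum]
    rw [Finsupp.finsetSum_apply, map_sum]
    refine Finset.sum_congr rfl fun x _ => ?_
    rw [Finsupp.smul_apply, smul_eq_mul, map_mul]
  have hnn : ∀ m, ∀ x ∈ e.support, 0 ≤ eps (e x) * eps (φ x m) := fun m x hx =>
    mul_nonneg (eps_nonneg (he2 x)) (eps_nonneg (hφ3 x (he1 hx) m))
  have h1 : ∑ x ∈ e.support, eps (e x) * eps (φ x (-a)) = 1 := by
    rw [← heps, hf2, eps_T]
  obtain ⟨x, hx, hxne⟩ : ∃ x ∈ e.support, eps (e x) * eps (φ x (-a)) ≠ 0 := by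
    by_contra hcon
    push Not at hcon
    rw [Finset.sum_eq_zero hcon] at h1
    exact zero_ne_one h1
  have hxB := he1 hx
  have h2 : eps (e x) * eps (φ x (-a)) ≤ 1 := by
    rw [← h1]
    exact Finset.single_le_sum (hnn (-a)) hx
  have h3 : eps (e x) * eps (φ x (-a)) = 1 := by
    have := hnn (-a) x hx
    omega
  have h4 : eps (e x) = 1 := by
    rcases Int.eq_one_or_neg_one_of_mul_eq_one h3 with h5 | h5
    · exact h5
    · have := eps_nonneg (he2 x)
      omega
  have h5 : eps (φ x (-a)) = 1 := by rwa [h4, one_mul] at h3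
  obtain ⟨k, hk⟩ := eq_T_of_eps (he2 x) h4
  obtain ⟨j, hj⟩ := eq_T_of_eps (hφ3 x hxB (-a)) h5
  have hj0 : φ x (-a) = 1 := by
    have h6 := hφ2 x hxB (-a)
    rw [hj, invert_T] at h6
    by_cases hjz : j = 0
    · rw [hj, hjz, T_zero]
    · exact absurd (sub_eq_zero.mpr h6) (T_ne_T (by omega))
  refine ⟨x, hxB, ?_, k, e, he1, he3', hk⟩
  refine ⟨LL X (φ x - Finsupp.single (-a) 1), ?_, ?_⟩
  · rw [Finsupp.mem_span_image_iff_linearCombination]
    refine ⟨_, ?_, rfl⟩
    rw [Finsupp.mem_supported]
    intro m hm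
    rw [Finset.mem_coe, Finsupp.mem_support_iff, Finsupp.sub_apply] at hm
    by_cases hma : m = -a
    · subst hma
      rw [hj0, Finsupp.single_eq_same, sub_self] at hm
      exact absurd rfl hm
    · rw [Finsupp.single_eq_of_ne hma, sub_zero] at hm
      have h7 : 0 < eps (φ x m) := eps_pos (hφ3 x hxB m) hm
      have h8 : eps (e x) * eps (φ x m) ≤ eps (f m) := by
        rw [heps m]
        exact Finset.single_le_sum (hnn m) hx
      rw [h4, one_mul] at h8
      have h9 : f m ≠ 0 := by
        intro h0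
        rw [h0, map_zero] at h8
        omega
      exact (hf3 m h9).resolve_left hma
  · rw [map_sub, ← hφ1 x hxB, LL_single, one_smul]
    abel

lemma stm_mem (hB : IsPositiveBasis X B) (a : ℤ × ℤ) :
    stm X a ∈ clusterAlgebra X := by
  have hsub : ∀ y ∈ B, y ∈ clusterAlgebra X := by
    intro y hy
    have : y ∈ Submodule.span Coef B := Submodule.subset_span hy
    rw [hB.span] at this
    exact this
  exact Subalgebra.mul_mem _ (hsub _ (hB.monomials 2 _ _)) (hsub _ (hB.monomials 0 _ _))

/-- Outside of the open quadrant the standard monomials are cluster monomials. -/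
lemma stm_direct (h : IsClusterSeq b c X) (hB : IsPositiveBasis X B) (a : ℤ × ℤ)
    (ha : a.1 ≤ 0 ∨ a.2 ≤ 0) : ∃ k : ℤ, ∃ y ∈ B, stm X a = (T k : Coef) • y := by
  obtain ⟨a1, a2⟩ := a
  simp only at ha
  unfold stm
  simp only
  by_cases h1 : a1 ≤ 0
  · by_cases h2 : a2 ≤ 0
    · have e1 : a1.toNat = 0 := by omega
      have e2 : a2.toNat = 0 := by omega
      rw [e1, e2]
      refine ⟨(-a2).toNat * (-a1).toNat, _, hB.monomials 1 (-a1).toNat (-a2).toNat, ?_⟩
      have h3 := qpow2 h.qcomm (-a1).toNat (-a2).toNat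
      unfold mon
      simp only [Nat.cast_zero, mul_zero, zero_mul, T_zero, one_smul, zpow_zero, mul_one, one_mul,
        zpow_natCast]
      rw [show (0 : ℤ) + 1 = 1 by norm_num, show (1 : ℤ) + 1 = 2 by norm_num, h3, T_smul_smul]
      congr 2
      ring
    · have e1 : a1.toNat = 0 := by omega
      have e2 : (-a2).toNat = 0 := by omega
      rw [e1, e2]
      refine ⟨0, _, hB.monomials 0 a2.toNat (-a1).toNat, ?_⟩
      have : mon X 2 ((0 : ℕ) : ℤ) ((0 : ℕ) : ℤ) = 1 := by simp [mon]
      rw [this, one_mul, T_zero, one_smul]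
  · have h2 : a2 ≤ 0 := ha.resolve_left h1
    have e1 : (-a1).toNat = 0 := by omega
    have e2 : a2.toNat = 0 := by omega
    rw [e1, e2]
    refine ⟨0, _, hB.monomials 2 (-a2).toNat a1.toNat, ?_⟩
    have : mon X 0 ((0 : ℕ) : ℤ) ((0 : ℕ) : ℤ) = 1 := by simp [mon]
    rw [this, mul_one, T_zero, one_smul]

/-- Triangularity. -/
lemma tri (h : IsClusterSeq b c X) (hb : 1 ≤ b) (hc : 1 ≤ c) (a : ℤ × ℤ) {y : F}
    (hy : y ∈ clusterAlgebra X) (hya : y ∈ Submodule.span Coef (xm X '' coneS b c a)) :
    y ∈ Submodule.span Coef (stm X '' {a' | -a' ∈ coneS b c a}) := by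
  classical
  have h1 := clusterAlgebra_le_stm h hb hc hy
  rw [Finsupp.mem_span_range_iff_exists_finsupp] at h1
  obtain ⟨g, hg⟩ := h1
  obtain ⟨fy, hfy1, hfy2⟩ := exists_rep_of_span hya
  have hrep : ∀ a' : ℤ × ℤ, ∃ (k : ℤ) (f : ℤ × ℤ →₀ Coef), stm X a' = LL X f ∧ f (-a') = T k ∧
      ∀ m, f m ≠ 0 → m = -a' ∨ m ∈ coneS b c a' := fun a' => (Pt_stm h a').rep hb hc
  choose k φ hφ1 hφ2 hφ3 using hrep
  have hsum : fy = ∑ a' ∈ g.support, g a' • φ a' := by
    apply LL_inj h
    rw [← hfy1, ← hg, map_sum, Finsupp.sum]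
    refine Finset.sum_congr rfl fun a' _ => ?_
    rw [map_smul, ← hφ1]
  have hgood : ∀ a' ∈ g.support, -a' ∈ coneS b c a := by
    by_contra hcon
    push Not at hcon
    obtain ⟨a'', ha'', hbad''⟩ := hcon
    obtain ⟨a0, ha0, hmax⟩ := Finset.exists_max_image
      (g.support.filter (fun a' => -a' ∉ coneS b c a)) (fun a' => a'.1 + a'.2)
      ⟨a'', Finset.mem_filter.mpr ⟨ha'', hbad''⟩⟩
    rw [Finset.mem_filter] at ha0
    have h2 : fy (-a0) = g a0 * T (k a0) := by
      rw [hsum, Finsupp.finsetSum_apply, Finset.sum_eq_single a0]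
      · rw [Finsupp.smul_apply, smul_eq_mul, hφ2]
      · intro a' ha' hne
        rw [Finsupp.smul_apply, smul_eq_mul]
        have h3 : φ a' (-a0) = 0 := by
          by_contra hne0
          rcases hφ3 a' _ hne0 with h4 | h4
          · exact hne (neg_injective h4).symm
          · obtain ⟨p, q, hpq, h5⟩ := h4
            by_cases hgd : -a' ∈ coneS b c a
            · apply ha0.2
              obtain ⟨p', q', hpq', h6⟩ := hgd
              refine ⟨p + p', q + q', by omega, ?_⟩
              rw [h5]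
              have h7 := congrArg Prod.fst h6
              have h8 := congrArg Prod.snd h6
              simp only [Prod.fst_neg, Prod.snd_neg] at h7 h8
              ext
              · push_cast
                linarith
              · push_cast
                linarith
            · have h6 := hmax a' (Finset.mem_filter.mpr ⟨ha', hgd⟩)
              have h7 := congrArg Prod.fst h5
              have h8 := congrArg Prod.snd h5
              simp only [Prod.fst_neg, Prod.snd_neg] at h7 h8
              have hb' : (1 : ℤ) ≤ b := by exact_mod_cast hb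
              have hc' : (1 : ℤ) ≤ c := by exact_mod_cast hc
              have h9 : (p : ℤ) ≤ b * p := by nlinarith [Int.natCast_nonneg p]
              have h10 : (q : ℤ) ≤ c * q := by nlinarith [Int.natCast_nonneg q]
              omega
        rw [h3, mul_zero]
      · intro h0
        exact absurd ha0.1 h0
    have h3 : fy (-a0) = 0 := by
      by_contra hne
      exact ha0.2 (hfy2 _ hne)
    rw [h3] at h2
    have h4 : g a0 = 0 := by
      have h5 := congrArg (fun f : Coef => f * T (-k a0)) h2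
      simp only [zero_mul, mul_assoc, ← T_add, add_neg_cancel, T_zero, mul_one] at h5
      exact h5.symm
    exact (Finsupp.mem_support_iff.mp ha0.1) h4
  rw [← hg]
  refine Submodule.sum_mem _ fun a' ha' => Submodule.smul_mem _ _
    (Submodule.subset_span ⟨a', hgood a' ha', rfl⟩)

lemma isPointed_iff (a : ℤ × ℤ) (y : F) : IsPointed b c X a.1 a.2 y ↔ PtN b c X a y := by
  classical
  constructor
  · rintro ⟨e, he, rfl⟩
    let v : ℕ × ℕ → F := fun p => xm X (b * p.1 - a.1, c * p.2 - a.2)
    have h0 : v (0, 0) = xm X (-a) := by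
      show xm X _ = xm X _
      congr 1
      ext <;> simp
    refine ⟨Finsupp.linearCombination Coef v (e - Finsupp.single (0, 0) 1), ?_, ?_⟩
    · rw [Finsupp.linearCombination_apply]
      refine Submodule.sum_mem _ fun p hp => Submodule.smul_mem _ _ (Submodule.subset_span ?_)
      refine ⟨_, ⟨p.1, p.2, ?_, rfl⟩, rfl⟩
      by_contra hcon
      push Not at hcon
      have hp0 : p = (0, 0) := Prod.ext hcon.1 hcon.2
      rw [Finsupp.mem_support_iff, hp0, Finsupp.sub_apply, he, Finsupp.single_eq_same,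
        sub_self] at hp
      exact hp rfl
    · rw [map_sub, Finsupp.linearCombination_single, one_smul, h0, Finsupp.linearCombination_apply]
      show e.sum (fun p f => f • v p) = _
      abel
  · rintro ⟨z, hz, rfl⟩
    let v : ℕ × ℕ → F := fun p => xm X (b * p.1 - a.1, c * p.2 - a.2)
    have h0 : v (0, 0) = xm X (-a) := by
      show xm X _ = xm X _
      congr 1
      ext <;> simp
    have h1 : xm X '' coneS b c a = v '' {p | p ≠ (0, 0)} := by
      ext x
      constructor
      · rintro ⟨_, ⟨p, q, hpq, rfl⟩, rfl⟩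
        refine ⟨(p, q), ?_, rfl⟩
        intro h0
        simp only [Prod.mk.injEq] at h0
        omega
      · rintro ⟨p, hp, rfl⟩
        refine ⟨_, ⟨p.1, p.2, ?_, rfl⟩, rfl⟩
        by_contra hcon
        push Not at hcon
        exact hp (Prod.ext hcon.1 hcon.2)
    rw [h1, Finsupp.mem_span_image_iff_linearCombination] at hz
    obtain ⟨g, hg, rfl⟩ := hz
    rw [Finsupp.mem_supported] at hg
    have hg0 : g (0, 0) = 0 := by
      by_contra hne
      exact hg (Finsupp.mem_support_iff.mpr hne) rfl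
    refine ⟨Finsupp.single (0, 0) 1 + g, ?_, ?_⟩
    · rw [Finsupp.add_apply, Finsupp.single_eq_same, hg0, add_zero]
    · have h2 : Finsupp.linearCombination Coef v (Finsupp.single (0, 0) 1 + g) =
          xm X (-a) + Finsupp.linearCombination Coef v g := by
        rw [map_add, Finsupp.linearCombination_single, one_smul, h0]
      rw [← h2, Finsupp.linearCombination_apply]
      rfl

lemma PtN.unique (h : IsClusterSeq b c X) (hb : 1 ≤ b) (hc : 1 ≤ c) {a a' : ℤ × ℤ} {y : F}
    (h1 : PtN b c X a y) (h2 : PtN b c X a' y) : a = a' := by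
  have toPt : ∀ {a : ℤ × ℤ}, PtN b c X a y → Pt b c X a y := by
    rintro a ⟨z, hz, rfl⟩
    exact ⟨0, z, hz, by rw [T_zero, one_smul]⟩
  obtain ⟨k, f, hf1, hf2, hf3⟩ := (toPt h1).rep hb hc
  obtain ⟨k', f', hf1', hf2', hf3'⟩ := (toPt h2).rep hb hc
  have hff : f = f' := LL_inj h (hf1.symm.trans hf1')
  subst hff
  have hT : ∀ k : ℤ, (T k : Coef) ≠ 0 := by
    intro k h0
    have := congrArg eps h0
    rw [eps_T, map_zero] at this
    exact one_ne_zero this
  have c1 := hf3 (-a') (by rw [hf2']; exact hT _)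
  have c2 := hf3' (-a) (by rw [hf2]; exact hT _)
  rcases c1 with c1 | c1
  · exact (neg_injective c1).symm
  rcases c2 with c2 | c2
  · exact neg_injective c2
  exfalso
  obtain ⟨p, q, hpq, e1⟩ := c1
  obtain ⟨p', q', hpq', e2⟩ := c2
  have f1 := congrArg Prod.fst e1
  have f2 := congrArg Prod.snd e1
  have g1 := congrArg Prod.fst e2
  have g2 := congrArg Prod.snd e2
  simp only [Prod.fst_neg, Prod.snd_neg] at f1 f2 g1 g2
  have hb' : (1 : ℤ) ≤ b := by exact_mod_cast hb
  have hc' : (1 : ℤ) ≤ c := by exact_mod_cast hc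
  have h9 : (p : ℤ) ≤ b * p := by nlinarith [Int.natCast_nonneg p]
  have h10 : (q : ℤ) ≤ c * q := by nlinarith [Int.natCast_nonneg q]
  have h11 : (p' : ℤ) ≤ b * p' := by nlinarith [Int.natCast_nonneg p']
  have h12 : (q' : ℤ) ≤ c * q' := by nlinarith [Int.natCast_nonneg q']
  omega

/-- The main theorem. -/
theorem main (h : IsClusterSeq b c X) (hb : 1 ≤ b) (hc : 1 ≤ c) (hB : IsPositiveBasis X B)
    (a : ℤ × ℤ) : ∃! y, y ∈ B ∧ IsPointed b c X a.1 a.2 y := by
  classical
  choose β hβ1 hβ2 k e he1 he2 he3 using fun a => exists_pointed h hb hc hB a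
  have hTne : ∀ k : ℤ, (T k : Coef) ≠ 0 := by
    intro k h0
    have := congrArg eps h0
    rw [eps_T, map_zero] at this
    exact one_ne_zero this
  have hsub : ∀ y ∈ B, y ∈ clusterAlgebra X := by
    intro y hy
    have : y ∈ Submodule.span Coef B := Submodule.subset_span hy
    rw [hB.span] at this
    exact this
  -- the standard monomials lie in the span of the `β a`
  have hstm : ∀ n : ℕ, ∀ a : ℤ × ℤ, (a.1 + a.2).toNat ≤ n →
      stm X a ∈ Submodule.span Coef (Set.range β) := by
    intro n
    induction n using Nat.strong_induction_on with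
    | _ n ih =>
      intro a han
      by_cases hdir : a.1 ≤ 0 ∨ a.2 ≤ 0
      · obtain ⟨l, y, hy, hstm⟩ := stm_direct h hB a hdir
        have h1 := uniq hB (g := e a) (e := Finsupp.single y (T l)) (he1 a) (by
          intro x hx
          have := Finsupp.support_single_subset hx
          rw [Finset.mem_singleton] at this
          rw [this]; exact hy) (by
          have hs : (Finsupp.single y (T l : Coef)).sum (fun x f => f • x) = (T l : Coef) • y :=
            Finsupp.sum_single_index (zero_smul _ _)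
          rw [← he2 a, hstm, hs])
        have h2 : β a = y := by
          by_contra hne
          have h3 := he3 a
          rw [h1, Finsupp.single_eq_of_ne hne] at h3
          exact hTne _ h3.symm
        rw [hstm, ← h2]
        exact Submodule.smul_mem _ _ (Submodule.subset_span ⟨a, rfl⟩)
      · push Not at hdir
        obtain ⟨l, z, hz, hst⟩ := Pt_stm h a
        obtain ⟨z', hz', hβ⟩ := hβ2 a
        have h1 : stm X a - (T l : Coef) • β a ∈
            Submodule.span Coef (stm X '' {a' | -a' ∈ coneS b c a}) := by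
          apply tri h hb hc a
          · exact Subalgebra.sub_mem _ (stm_mem hB a) (Subalgebra.smul_mem _ (hsub _ (hβ1 a)) _)
          · have h2 : stm X a - (T l : Coef) • β a = z - (T l : Coef) • z' := by
              rw [hst, hβ, smul_add]
              abel
            rw [h2]
            exact Submodule.sub_mem _ hz (Submodule.smul_mem _ _ hz')
        have h2 : Submodule.span Coef (stm X '' {a' | -a' ∈ coneS b c a}) ≤
            Submodule.span Coef (Set.range β) := by
          rw [Submodule.span_le]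
          rintro _ ⟨a', ⟨p, q, hpq, ha'⟩, rfl⟩
          have f1 := congrArg Prod.fst ha'
          have f2 := congrArg Prod.snd ha'
          simp only [Prod.fst_neg, Prod.snd_neg] at f1 f2
          have hb' : (1 : ℤ) ≤ b := by exact_mod_cast hb
          have hc' : (1 : ℤ) ≤ c := by exact_mod_cast hc
          have h9 : (p : ℤ) ≤ b * p := by nlinarith [Int.natCast_nonneg p]
          have h10 : (q : ℤ) ≤ c * q := by nlinarith [Int.natCast_nonneg q]
          exact ih (a'.1 + a'.2).toNat (by omega) a' le_rfl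
        have h3 := Submodule.add_mem _ (h2 h1)
          (Submodule.smul_mem _ (T l : Coef) (Submodule.subset_span (s := Set.range β) ⟨a, rfl⟩))
        rwa [sub_add_cancel] at h3
  have hall : ∀ y ∈ B, y ∈ Set.range β := by
    intro y hy
    by_contra hne
    have h1 : y ∈ Submodule.span Coef (Set.range β) := by
      have h2 := clusterAlgebra_le_stm h hb hc (hsub y hy)
      have h3 : Submodule.span Coef (Set.range (stm X)) ≤ Submodule.span Coef (Set.range β) := by
        rw [Submodule.span_le]
        rintro _ ⟨a, rfl⟩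
        exact hstm _ a le_rfl
      exact h3 h2
    have h2 := hB.indep.notMem_span_image (s := {x : B | (x : F) ∈ Set.range β})
      (x := ⟨y, hy⟩) hne
    apply h2
    convert h1 using 2
    ext x
    constructor
    · rintro ⟨x, hx, rfl⟩
      exact hx
    · intro hx
      obtain ⟨a', rfl⟩ := hx
      exact ⟨⟨β a', hβ1 a'⟩, ⟨a', rfl⟩, rfl⟩
  refine ⟨β a, ⟨hβ1 a, (isPointed_iff a _).mpr (hβ2 a)⟩, ?_⟩
  rintro y ⟨hy, hpt⟩
  obtain ⟨a', rfl⟩ := hall y hy
  have := PtN.unique h hb hc ((isPointed_iff a _).mp hpt) (hβ2 a')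
  rw [this]

end Pool.Agent.W423.QC
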