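import Mathlib

/-!
# Rank 2 quantum cluster algebras

Definitions for the rank 2 quantum cluster algebra `A_v(b, c)` inside a division ring `F` which
contains the quantum torus `T = ℤ[v, v⁻¹]⟨X_1, X_1⁻¹, X_2, X_2⁻¹⟩`, `X_2 X_1 = v ^ 2 X_1 X_2`.
-/

set_option autoImplicit false

namespace Pool.Agent.W423.QC

open LaurentPolynomial

universe u

/-- The ring of coefficients `ℤ[v, v⁻¹]`. The power `v ^ k` is the element `T k`. -/
abbrev Coef : Type := LaurentPolynomial ℤ

variable {F : Type u} [DivisionRing F] [Algebra Coef F]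

/-- The element `X_m ^ (u, w) = v ^ (u w) X_m ^ u X_{m+1} ^ w`. -/
noncomputable def mon (X : ℤ → F) (m u w : ℤ) : F :=
  (T (u * w) : Coef) • (X m ^ u * X (m + 1) ^ w)

/-- `X_m` (`m ∈ ℤ`) are the quantum cluster variables of `A_v(b, c)`, for the initial cluster
`X_1, X_2`: one has `X_2 X_1 = v ^ 2 X_1 X_2`, the monomials in `X_1, X_2` are linearly independent
over `ℤ[v, v⁻¹]` (so that `X_1 ^ {±1}, X_2 ^ {±1}` generate the quantum torus `T`), and the exchange
relations hold. -/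
structure IsClusterSeq (b c : ℕ) (X : ℤ → F) : Prop where
  qcomm : X 2 * X 1 = (T 2 : Coef) • (X 1 * X 2)
  torus : LinearIndependent Coef (fun a : ℤ × ℤ => X 1 ^ a.1 * X 2 ^ a.2)
  odd : ∀ m : ℤ, Odd m → X (m + 1) * X (m - 1) = (T (b : ℤ) : Coef) • X m ^ b + 1
  even : ∀ m : ℤ, Even m → X (m + 1) * X (m - 1) = (T (c : ℤ) : Coef) • X m ^ c + 1

/-- The quantum cluster algebra `A_v(b, c)`: the `ℤ[v, v⁻¹]`-subalgebra of `F` generated by all
the quantum cluster variables `X_m`. -/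
noncomputable def clusterAlgebra (X : ℤ → F) : Subalgebra Coef F := Algebra.adjoin Coef (Set.range X)

/-- A Laurent polynomial in `v` has nonnegative coefficients. -/
def NonNeg (f : Coef) : Prop := ∀ k : ℤ, 0 ≤ f.coeff k

/-- `y` lies in the quantum torus `T` and is fixed by the bar-involution of `T`, that is by the
`ℤ`-linear map which sends `f(v) X_1 ^ a₁ X_2 ^ a₂` to `f(v⁻¹) X_2 ^ a₂ X_1 ^ a₁`. -/
def BarInvariant (X : ℤ → F) (y : F) : Prop :=
  ∃ e : ℤ × ℤ →₀ Coef, y = e.sum (fun a f => f • (X 1 ^ a.1 * X 2 ^ a.2)) ∧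
    y = e.sum (fun a f => invert f • (X 2 ^ a.2 * X 1 ^ a.1))

/-- `y` is pointed at `(a₁, a₂)` with respect to the initial cluster: it is a finite sum
`∑ e(p, q) X_1 ^ (b p - a₁, c q - a₂)` over `p, q ≥ 0`, with `e(p, q) ∈ ℤ[v, v⁻¹]` and
`e(0, 0) = 1`. -/
def IsPointed (b c : ℕ) (X : ℤ → F) (a₁ a₂ : ℤ) (y : F) : Prop :=
  ∃ e : ℕ × ℕ →₀ Coef, e (0, 0) = 1 ∧
    y = e.sum (fun p f => f • mon X 1 (b * p.1 - a₁) (c * p.2 - a₂))

/-- `B` is a `ℤ[v, v⁻¹]`-basis of `A_v(b, c)` with the following properties: its elements are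
bar-invariant, it contains all quantum cluster monomials, and every product of two elements of `B`
is a linear combination of elements of `B` with coefficients in `ℤ_{≥ 0}[v, v⁻¹]`. -/
structure IsPositiveBasis (X : ℤ → F) (B : Set F) : Prop where
  indep : LinearIndependent Coef (Subtype.val : B → F)
  span : Submodule.span Coef B = Subalgebra.toSubmodule (clusterAlgebra X)
  bar : ∀ y ∈ B, BarInvariant X y
  monomials : ∀ (m : ℤ) (u w : ℕ), mon X m u w ∈ B
  pos : ∀ y ∈ B, ∀ z ∈ B, ∃ e : F →₀ Coef, (e.support : Set F) ⊆ B ∧ (∀ x, NonNeg (e x)) ∧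
    y * z = e.sum (fun x f => f • x)

end Pool.Agent.W423.QC
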