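import Pool.Agent.W423.QC.Defs

/-!
# Relations between the quantum cluster variables
-/

set_option autoImplicit false

namespace Pool.Agent.W423.QC

open LaurentPolynomial

universe u

variable {F : Type u} [DivisionRing F] [Algebra Coef F]

lemma T_smul_smul (k l : ℤ) (y : F) : (T k : Coef) • (T l : Coef) • y = (T (k + l) : Coef) • y := by
  rw [smul_smul, ← T_add]

lemma T_smul_cancel {k : ℤ} {y z : F} (h : (T k : Coef) • y = (T k : Coef) • z) : y = z := by
  have h1 := congrArg (fun w => (T (-k) : Coef) • w) h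
  simpa [T_smul_smul] using h1

/-- `y` and `x` commute up to a power of `v`. -/
lemma qpow {x y : F} {k : ℤ} (h : y * x = (T k : Coef) • (x * y)) (m : ℕ) :
    y * x ^ m = (T (k * m) : Coef) • (x ^ m * y) := by
  induction m with
  | zero => simp
  | succ m ih =>
    rw [pow_succ, ← mul_assoc, ih, smul_mul_assoc, mul_assoc, h, mul_smul_comm, T_smul_smul,
      mul_assoc]
    congr 2
    push_cast
    ring

lemma qpow' {x y : F} {k : ℤ} (h : y * x = (T k : Coef) • (x * y)) (n : ℕ) :
    y ^ n * x = (T (k * n) : Coef) • (x * y ^ n) := by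
  induction n with
  | zero => simp
  | succ n ih =>
    rw [pow_succ', mul_assoc, ih, mul_smul_comm, ← mul_assoc, h, smul_mul_assoc, T_smul_smul,
      mul_assoc]
    congr 2
    push_cast
    ring

lemma qpow2 {x y : F} {k : ℤ} (h : y * x = (T k : Coef) • (x * y)) (m n : ℕ) :
    y ^ n * x ^ m = (T (k * m * n) : Coef) • (x ^ m * y ^ n) :=
  qpow' (qpow h m) n

lemma T_smul_eq_iff {k : ℤ} {y z : F} : y = (T k : Coef) • z ↔ z = (T (-k) : Coef) • y := by
  constructor
  · intro h
    rw [h, T_smul_smul]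
    simp
  · intro h
    rw [h, T_smul_smul]
    simp

lemma qinv {x y : F} {k : ℤ} (h : y * x = (T k : Coef) • (x * y)) :
    x * y = (T (-k) : Coef) • (y * x) := T_smul_eq_iff.mp h

lemma qinvx {x y : F} {k : ℤ} (hx : x ≠ 0) (h : y * x = (T k : Coef) • (x * y)) :
    y * x⁻¹ = (T (-k) : Coef) • (x⁻¹ * y) := by
  have h1 : x * (y * x⁻¹) = x * ((T (-k) : Coef) • (x⁻¹ * y)) := by
    rw [mul_smul_comm, ← mul_assoc x x⁻¹, mul_inv_cancel₀ hx, one_mul, ← mul_assoc, qinv h,
      smul_mul_assoc, mul_assoc, mul_inv_cancel₀ hx, mul_one]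
  exact mul_left_cancel₀ hx h1

lemma qinvy {x y : F} {k : ℤ} (hy : y ≠ 0) (h : y * x = (T k : Coef) • (x * y)) :
    y⁻¹ * x = (T (-k) : Coef) • (x * y⁻¹) := by
  have h1 := qinvx (x := y) (y := x) hy (qinv h)
  rw [neg_neg] at h1
  exact qinv h1

/-- integer powers -/
lemma qzpow {x y : F} {k : ℤ} (hx : x ≠ 0) (hy : y ≠ 0) (h : y * x = (T k : Coef) • (x * y))
    (m n : ℤ) : y ^ n * x ^ m = (T (k * m * n) : Coef) • (x ^ m * y ^ n) := by
  -- first the powers of `x`
  have h1 : y * x ^ m = (T (k * m) : Coef) • (x ^ m * y) := by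
    cases m with
    | ofNat m => simpa using qpow h m
    | negSucc m =>
      have h2 := qpow (qinvx hx h) (m + 1)
      rw [zpow_negSucc, ← inv_pow]
      convert h2 using 3
      rw [Int.negSucc_eq]
      push_cast
      ring
  cases n with
  | ofNat n => simpa using qpow' h1 n
  | negSucc n =>
    have h2 := qpow' (qinvy hy h1) (n + 1)
    rw [zpow_negSucc, ← inv_pow]
    convert h2 using 3
    rw [Int.negSucc_eq]
    push_cast
    ring

section Seq

variable {b c : ℕ} {X : ℤ → F}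

/-- The exponent in the exchange relation at `m`. -/
def dd (b c : ℕ) (m : ℤ) : ℕ := if Odd m then b else c

lemma dd_pos (hb : 1 ≤ b) (hc : 1 ≤ c) (m : ℤ) : 1 ≤ dd b c m := by
  unfold dd; split_ifs <;> assumption

lemma dd_add_two (m : ℤ) : dd b c (m + 2) = dd b c m := by
  unfold dd
  have : Odd (m + 2) ↔ Odd m := by
    rw [Int.odd_add]
    simp
  simp only [this]

lemma IsClusterSeq.exch (h : IsClusterSeq b c X) (m : ℤ) :
    X (m + 1) * X (m - 1) = (T (dd b c m : ℤ) : Coef) • X m ^ (dd b c m) + 1 := by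
  unfold dd
  split_ifs with hm
  · exact h.odd m hm
  · exact h.even m (Int.not_odd_iff_even.mp hm)

lemma IsClusterSeq.smul_one_eq_zero (h : IsClusterSeq b c X) {f : Coef} (hf : f • (1 : F) = 0) :
    f = 0 := by
  have h1 := linearIndependent_iff'.mp h.torus {((0, 0) : ℤ × ℤ)} (fun _ => f)
  simp only [Finset.sum_singleton, zpow_zero, mul_one, Finset.mem_singleton] at h1
  exact h1 hf (0, 0) rfl

lemma IsClusterSeq.smul_eq_zero' (h : IsClusterSeq b c X) {f : Coef} {y : F} (hy : y ≠ 0)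
    (hf : f • y = 0) : f = 0 := by
  apply h.smul_one_eq_zero
  have : f • y = (f • (1 : F)) * y := by rw [smul_mul_assoc, one_mul]
  rw [this] at hf
  exact (mul_eq_zero.mp hf).resolve_right hy

lemma T_ne_T {k l : ℤ} (h : k ≠ l) : (T k : Coef) - T l ≠ 0 := by
  intro h1
  have h2 := congrArg (fun f : Coef => f.coeff k) h1
  simp only [AddMonoidAlgebra.coeff_sub, Finsupp.coe_sub, Pi.sub_apply, T_apply] at h2
  simp [Ne.symm h] at h2

lemma IsClusterSeq.ne_one (h : IsClusterSeq b c X) : X 1 ≠ 0 := by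
  intro h0
  have := h.torus.ne_zero (1, 0)
  simp [h0] at this

lemma IsClusterSeq.ne_two (h : IsClusterSeq b c X) : X 2 ≠ 0 := by
  intro h0
  have := h.torus.ne_zero (0, 1)
  simp [h0] at this

/-- up step -/
lemma step_up (h : IsClusterSeq b c X) (hb : 1 ≤ b) (hc : 1 ≤ c) (m : ℤ)
    (h0 : X (m - 1) ≠ 0)
    (hq : X m * X (m - 1) = (T 2 : Coef) • (X (m - 1) * X m)) :
    X (m + 1) ≠ 0 ∧ X (m + 1) * X m = (T 2 : Coef) • (X m * X (m + 1)) := by
  have he := h.exch m
  set d := dd b c m with hd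
  have hd1 : 1 ≤ d := dd_pos hb hc m
  constructor
  · intro hz
    rw [hz, zero_mul] at he
    have h2 : X m ^ d = -((T (-(d : ℤ)) : Coef) • (1 : F)) := by
      have h3 : (T (d : ℤ) : Coef) • X m ^ d = -1 := by
        rw [eq_neg_iff_add_eq_zero]; exact he.symm
      have h4 := congrArg (fun w => (T (-(d : ℤ)) : Coef) • w) h3
      simpa [T_smul_smul] using h4
    have h3 := qpow' hq d
    rw [h2] at h3
    simp only [neg_mul, smul_mul_assoc, one_mul, mul_neg, mul_smul_comm, mul_one, smul_neg,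
      neg_inj] at h3
    rw [T_smul_smul, ← sub_eq_zero, ← sub_smul] at h3
    have h4 := h.smul_eq_zero' h0 h3
    refine T_ne_T ?_ h4
    intro h5
    have : (1 : ℤ) ≤ d := by exact_mod_cast hd1
    omega
  · apply mul_right_cancel₀ h0
    rw [mul_assoc, hq, mul_smul_comm, ← mul_assoc, he, smul_mul_assoc, mul_assoc, he]
    congr 1
    rw [add_mul, mul_add, one_mul, mul_one, smul_mul_assoc, mul_smul_comm, ← pow_succ, ← pow_succ']

/-- down step -/
lemma step_down (h : IsClusterSeq b c X) (hb : 1 ≤ b) (hc : 1 ≤ c) (m : ℤ)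
    (h0 : X (m + 1) ≠ 0)
    (hq : X (m + 1) * X m = (T 2 : Coef) • (X m * X (m + 1))) :
    X (m - 1) ≠ 0 ∧ X m * X (m - 1) = (T 2 : Coef) • (X (m - 1) * X m) := by
  have he := h.exch m
  set d := dd b c m with hd
  have hd1 : 1 ≤ d := dd_pos hb hc m
  constructor
  · intro hz
    rw [hz, mul_zero] at he
    have h2 : X m ^ d = -((T (-(d : ℤ)) : Coef) • (1 : F)) := by
      have h3 : (T (d : ℤ) : Coef) • X m ^ d = -1 := by
        rw [eq_neg_iff_add_eq_zero]; exact he.symm
      have h4 := congrArg (fun w => (T (-(d : ℤ)) : Coef) • w) h3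
      simpa [T_smul_smul] using h4
    have h3 := qpow hq d
    rw [h2] at h3
    simp only [neg_mul, smul_mul_assoc, one_mul, mul_neg, mul_smul_comm, mul_one, smul_neg,
      neg_inj] at h3
    rw [T_smul_smul, ← sub_eq_zero, ← sub_smul] at h3
    have h4 := h.smul_eq_zero' h0 h3
    refine T_ne_T ?_ h4
    intro h5
    have : (1 : ℤ) ≤ d := by exact_mod_cast hd1
    omega
  · apply mul_left_cancel₀ h0
    rw [← mul_assoc, hq, smul_mul_assoc, mul_assoc, he, mul_smul_comm, ← mul_assoc, he]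
    congr 1
    rw [add_mul, mul_add, one_mul, mul_one, smul_mul_assoc, mul_smul_comm, ← pow_succ, ← pow_succ']

lemma all_aux (h : IsClusterSeq b c X) (hb : 1 ≤ b) (hc : 1 ≤ c) (m : ℤ) :
    X m ≠ 0 ∧ X (m + 1) ≠ 0 ∧ X (m + 1) * X m = (T 2 : Coef) • (X m * X (m + 1)) := by
  induction m using Int.induction_on with
  | zero =>
    have h1 := step_down h hb hc 1 h.ne_two h.qcomm
    exact ⟨h1.1, h.ne_one, h1.2⟩
  | succ n ih =>
    have h1 := step_up h hb hc (n + 1) (by simpa using ih.1) (by simpa using ih.2.2)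
    exact ⟨ih.2.1, h1.1, h1.2⟩
  | pred n ih =>
    have h1 := step_down h hb hc (-n) ih.2.1 ih.2.2
    refine ⟨h1.1, by simpa using ih.1, ?_⟩
    simpa using h1.2

lemma IsClusterSeq.ne (h : IsClusterSeq b c X) (hb : 1 ≤ b) (hc : 1 ≤ c) (m : ℤ) : X m ≠ 0 :=
  (all_aux h hb hc m).1

lemma IsClusterSeq.q (h : IsClusterSeq b c X) (hb : 1 ≤ b) (hc : 1 ≤ c) (m : ℤ) :
    X (m + 1) * X m = (T 2 : Coef) • (X m * X (m + 1)) := (all_aux h hb hc m).2.2

/-- the exchange relation in the other order -/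
lemma IsClusterSeq.exch' (h : IsClusterSeq b c X) (hb : 1 ≤ b) (hc : 1 ≤ c) (m : ℤ) :
    X (m - 1) * X (m + 1) = (T (-(dd b c m : ℤ)) : Coef) • X m ^ (dd b c m) + 1 := by
  have he := h.exch m
  have hq := h.q hb hc (m - 1)
  rw [sub_add_cancel] at hq
  apply mul_right_cancel₀ (h.ne hb hc (m - 1))
  rw [mul_assoc, he, mul_add, add_mul, mul_one, one_mul, mul_smul_comm, smul_mul_assoc]
  have h1 := qpow' hq (dd b c m)
  rw [h1, T_smul_smul]
  congr 3
  ring

/-- the product of powers -/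
lemma exists_prod (h : IsClusterSeq b c X) (hb : 1 ≤ b) (hc : 1 ≤ c) (m : ℤ) (k : ℕ) :
    ∃ g : F, g ∈ Algebra.adjoin Coef ({X m} : Set F) ∧
      X (m + 1) ^ k * X (m - 1) ^ k = 1 + g * X m ∧ g * X m = X m * g := by
  have he := h.exch m
  have hd1 : 1 ≤ dd b c m := dd_pos hb hc m
  obtain ⟨d', hd'⟩ : ∃ d', dd b c m = d' + 1 := ⟨dd b c m - 1, by omega⟩
  have hX : X m ∈ Algebra.adjoin Coef ({X m} : Set F) :=
    Algebra.subset_adjoin (Set.mem_singleton _)
  have hcomm : ∀ g ∈ Algebra.adjoin Coef ({X m} : Set F), g * X m = X m * g := by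
    intro g hg
    have h1 : g ∈ Subalgebra.centralizer Coef ({X m} : Set F) := by
      have h2 : Algebra.adjoin Coef ({X m} : Set F) ≤ Subalgebra.centralizer Coef ({X m} : Set F) := by
        rw [Algebra.adjoin_le_iff]
        rintro _ rfl
        rw [SetLike.mem_coe, Subalgebra.mem_centralizer_iff]
        rintro _ rfl
        rfl
      exact h2 hg
    rw [Subalgebra.mem_centralizer_iff] at h1
    exact (h1 (X m) rfl).symm
  induction k with
  | zero => exact ⟨0, Subalgebra.zero_mem _, by simp, by simp⟩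
  | succ k ih =>
    obtain ⟨g, hg, hg1, hg2⟩ := ih
    have h1 := qpow2 (h.q hb hc m) (dd b c m) k
    refine ⟨((T ((dd b c m : ℤ) + 2 * (dd b c m : ℤ) * k) : Coef) • X m ^ d') * (1 + g * X m) + g,
      ?_, ?_, ?_⟩
    · exact Subalgebra.add_mem _ (Subalgebra.mul_mem _ (Subalgebra.smul_mem _
        (Subalgebra.pow_mem _ hX _) _) (Subalgebra.add_mem _ (Subalgebra.one_mem _)
        (Subalgebra.mul_mem _ hg hX))) hg
    · have h2 : X (m + 1) ^ (k + 1) * X (m - 1) ^ (k + 1) =
          X (m + 1) ^ k * (X (m + 1) * X (m - 1)) * X (m - 1) ^ k := by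
        rw [pow_succ (X (m + 1)), pow_succ' (X (m - 1))]
        simp only [mul_assoc]
      rw [h2, he, mul_add, mul_one, add_mul, hg1, mul_smul_comm, h1, T_smul_smul, smul_mul_assoc,
        mul_assoc (X m ^ dd b c m), hg1]
      have h3 : X m ^ dd b c m * (1 + g * X m) = X m ^ d' * (1 + g * X m) * X m := by
        rw [hd', pow_succ, mul_assoc, mul_assoc]
        congr 1
        rw [mul_add, add_mul, one_mul, mul_one, hg2, mul_assoc, hg2]
      rw [h3, add_mul]
      simp only [smul_mul_assoc]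
      abel
    · apply hcomm
      exact Subalgebra.add_mem _ (Subalgebra.mul_mem _ (Subalgebra.smul_mem _
        (Subalgebra.pow_mem _ hX _) _) (Subalgebra.add_mem _ (Subalgebra.one_mem _)
        (Subalgebra.mul_mem _ hg hX))) hg

end Seq

end Pool.Agent.W423.QC
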