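import Pool.Agent.W423.QC.Rel

/-!
# The standard monomials span the quantum cluster algebra
-/

set_option autoImplicit false

namespace Pool.Agent.W423.QC

open LaurentPolynomial

universe u

variable {F : Type u} [DivisionRing F] [Algebra Coef F]

section Seq

variable {b c : ℕ} {X : ℤ → F}

lemma up_mem (h : IsClusterSeq b c X) (hb : 1 ≤ b) (hc : 1 ≤ c) (n : ℤ) :
    X (n + 2) ∈ Algebra.adjoin Coef ({X (n - 2), X (n - 1), X n, X (n + 1)} : Set F) := by
  obtain ⟨g, hg, hg1, -⟩ := exists_prod h hb hc n (dd b c (n + 1))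
  have hdd : dd b c (n - 1) = dd b c (n + 1) := by
    rw [← dd_add_two (n - 1)]; congr 1; ring
  have key : X (n + 2) =
      (T (dd b c (n + 1) : ℤ) : Coef) • (X (n + 1) ^ dd b c (n + 1) * X (n - 2)) - g := by
    apply mul_right_cancel₀ (h.ne hb hc n)
    have e1 := h.exch (n + 1)
    have e2 := h.exch' hb hc (n - 1)
    rw [show n + 1 + 1 = n + 2 by ring, show n + 1 - 1 = n by ring] at e1
    rw [show n - 1 - 1 = n - 2 by ring, show n - 1 + 1 = n by ring, hdd] at e2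
    rw [e1, sub_mul, smul_mul_assoc, mul_assoc, e2, mul_add, mul_one, mul_smul_comm, hg1, smul_add,
      T_smul_smul, add_neg_cancel, T_zero, one_smul]
    abel
  rw [key]
  have s : ∀ i : ℤ, X i ∈ ({X (n - 2), X (n - 1), X n, X (n + 1)} : Set F) →
      X i ∈ Algebra.adjoin Coef ({X (n - 2), X (n - 1), X n, X (n + 1)} : Set F) :=
    fun i hi => Algebra.subset_adjoin hi
  refine Subalgebra.sub_mem _ (Subalgebra.smul_mem _ (Subalgebra.mul_mem _
    (Subalgebra.pow_mem _ (s _ (by simp)) _) (s _ (by simp))) _) ?_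
  exact Algebra.adjoin_mono (by simp) hg

lemma down_mem (h : IsClusterSeq b c X) (hb : 1 ≤ b) (hc : 1 ≤ c) (n : ℤ) :
    X (n - 2) ∈ Algebra.adjoin Coef ({X (n - 1), X n, X (n + 1), X (n + 2)} : Set F) := by
  obtain ⟨g, hg, hg1, hg2⟩ := exists_prod h hb hc n (dd b c (n + 1))
  have hdd : dd b c (n - 1) = dd b c (n + 1) := by
    rw [← dd_add_two (n - 1)]; congr 1; ring
  have key : X (n - 2) =
      (T (dd b c (n + 1) : ℤ) : Coef) • (X (n + 2) * X (n - 1) ^ dd b c (n + 1)) - g := by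
    apply mul_left_cancel₀ (h.ne hb hc n)
    have e1 := h.exch' hb hc (n + 1)
    have e2 := h.exch (n - 1)
    rw [show n + 1 + 1 = n + 2 by ring, show n + 1 - 1 = n by ring] at e1
    rw [show n - 1 - 1 = n - 2 by ring, show n - 1 + 1 = n by ring, hdd] at e2
    rw [e2, mul_sub, mul_smul_comm, ← mul_assoc, e1, add_mul, one_mul, smul_mul_assoc, hg1,
      smul_add, T_smul_smul, add_neg_cancel, T_zero, one_smul, hg2]
    abel
  rw [key]
  have s : ∀ i : ℤ, X i ∈ ({X (n - 1), X n, X (n + 1), X (n + 2)} : Set F) →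
      X i ∈ Algebra.adjoin Coef ({X (n - 1), X n, X (n + 1), X (n + 2)} : Set F) :=
    fun i hi => Algebra.subset_adjoin hi
  refine Subalgebra.sub_mem _ (Subalgebra.smul_mem _ (Subalgebra.mul_mem _ (s _ (by simp))
    (Subalgebra.pow_mem _ (s _ (by simp)) _)) _) ?_
  exact Algebra.adjoin_mono (by simp) hg

/-- The subalgebra generated by four consecutive cluster variables. -/
noncomputable def A4 (X : ℤ → F) (n : ℤ) : Subalgebra Coef F :=
  Algebra.adjoin Coef ({X n, X (n + 1), X (n + 2), X (n + 3)} : Set F)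

lemma A4_succ_le (h : IsClusterSeq b c X) (hb : 1 ≤ b) (hc : 1 ≤ c) (n : ℤ) :
    A4 X (n + 1) ≤ A4 X n := by
  unfold A4
  rw [Algebra.adjoin_le_iff]
  intro y hy
  simp only [Set.mem_insert_iff, Set.mem_singleton_iff] at hy
  have h4 := up_mem h hb hc (n + 2)
  rw [show n + 2 - 2 = n by ring, show n + 2 - 1 = n + 1 by ring,
    show n + 2 + 1 = n + 3 by ring] at h4
  rcases hy with rfl | rfl | rfl | rfl
  · exact Algebra.subset_adjoin (by simp)
  · rw [show n + 1 + 1 = n + 2 by ring]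
    exact Algebra.subset_adjoin (by simp)
  · rw [show n + 1 + 2 = n + 3 by ring]
    exact Algebra.subset_adjoin (by simp)
  · rw [show n + 1 + 3 = n + 2 + 2 by ring]
    exact h4

lemma A4_pred_le (h : IsClusterSeq b c X) (hb : 1 ≤ b) (hc : 1 ≤ c) (n : ℤ) :
    A4 X (n - 1) ≤ A4 X n := by
  unfold A4
  rw [Algebra.adjoin_le_iff]
  intro y hy
  simp only [Set.mem_insert_iff, Set.mem_singleton_iff] at hy
  have h4 := down_mem h hb hc (n + 1)
  rw [show n + 1 - 2 = n - 1 by ring, show n + 1 - 1 = n by ring,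
    show n + 1 + 1 = n + 2 by ring, show n + 1 + 2 = n + 3 by ring] at h4
  rcases hy with rfl | rfl | rfl | rfl
  · exact h4
  · rw [show n - 1 + 1 = n by ring]
    exact Algebra.subset_adjoin (by simp)
  · rw [show n - 1 + 2 = n + 1 by ring]
    exact Algebra.subset_adjoin (by simp)
  · rw [show n - 1 + 3 = n + 2 by ring]
    exact Algebra.subset_adjoin (by simp)

lemma A4_le (h : IsClusterSeq b c X) (hb : 1 ≤ b) (hc : 1 ≤ c) (n : ℤ) :
    A4 X n ≤ A4 X 0 := by
  induction n using Int.induction_on with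
  | zero => exact le_rfl
  | succ n ih => exact (A4_succ_le h hb hc _).trans ih
  | pred n ih => exact (A4_pred_le h hb hc _).trans ih

lemma clusterAlgebra_le (h : IsClusterSeq b c X) (hb : 1 ≤ b) (hc : 1 ≤ c) :
    clusterAlgebra X ≤ A4 X 0 := by
  unfold clusterAlgebra
  rw [Algebra.adjoin_le_iff]
  rintro _ ⟨m, rfl⟩
  apply A4_le h hb hc m
  exact Algebra.subset_adjoin (by simp)

/-- Ordered monomials. -/
def om (X : ℤ → F) (u w s t : ℕ) : F := X 2 ^ u * (X 3 ^ w * (X 0 ^ s * X 1 ^ t))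

/-- The span of the ordered monomials. -/
noncomputable def oSpan (X : ℤ → F) : Submodule Coef F :=
  Submodule.span Coef {y | ∃ u w s t : ℕ, y = om X u w s t}

lemma om_mem (u w s t : ℕ) : om X u w s t ∈ oSpan X :=
  Submodule.subset_span ⟨u, w, s, t, rfl⟩

lemma mul_mem_oSpan {x : F} (hx : ∀ u w s t : ℕ, x * om X u w s t ∈ oSpan X) {z : F}
    (hz : z ∈ oSpan X) : x * z ∈ oSpan X := by
  unfold oSpan at hz
  induction hz using Submodule.span_induction with
  | mem y hy =>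
    obtain ⟨u, w, s, t, rfl⟩ := hy
    exact hx u w s t
  | zero => rw [mul_zero]; exact Submodule.zero_mem _
  | add y z _ _ h1 h2 => rw [mul_add]; exact Submodule.add_mem _ h1 h2
  | smul f y _ h1 => rw [mul_smul_comm]; exact Submodule.smul_mem _ _ h1

lemma pow_mul_mem_oSpan {x : F} (hx : ∀ u w s t : ℕ, x * om X u w s t ∈ oSpan X) (n : ℕ) {z : F}
    (hz : z ∈ oSpan X) : x ^ n * z ∈ oSpan X := by
  induction n with
  | zero => simpa using hz
  | succ n ih =>
    rw [pow_succ', mul_assoc]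
    exact mul_mem_oSpan hx ih

lemma closed2 (u w s t : ℕ) : X 2 * om X u w s t ∈ oSpan X := by
  have : X 2 * om X u w s t = om X (u + 1) w s t := by
    unfold om
    rw [← mul_assoc, ← pow_succ']
  rw [this]
  exact om_mem _ _ _ _

lemma closed3 (h : IsClusterSeq b c X) (hb : 1 ≤ b) (hc : 1 ≤ c) (u w s t : ℕ) :
    X 3 * om X u w s t ∈ oSpan X := by
  have h1 : X 3 * X 2 ^ u = (T (2 * u) : Coef) • (X 2 ^ u * X 3) := qpow (h.q hb hc 2) u
  have : X 3 * om X u w s t = (T (2 * u) : Coef) • om X u (w + 1) s t := by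
    unfold om
    rw [← mul_assoc, h1, smul_mul_assoc, mul_assoc, ← mul_assoc (X 3), ← pow_succ']
  rw [this]
  exact Submodule.smul_mem _ _ (om_mem _ _ _ _)

lemma closed1 (h : IsClusterSeq b c X) (hb : 1 ≤ b) (hc : 1 ≤ c) (u w s t : ℕ) :
    X 1 * om X u w s t ∈ oSpan X := by
  have h1 : X 2 ^ u * X 1 = (T (2 * u) : Coef) • (X 1 * X 2 ^ u) := qpow' (h.q hb hc 1) u
  have h2 := qinv h1
  cases w with
  | zero =>
    have h3 : X 1 * X 0 ^ s = (T (2 * s) : Coef) • (X 0 ^ s * X 1) := qpow (h.q hb hc 0) s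
    have : X 1 * om X u 0 s t = (T (-(2 * u)) : Coef) • (T (2 * s) : Coef) • om X u 0 s (t + 1) := by
      unfold om
      rw [← mul_assoc, h2, smul_mul_assoc, pow_zero, one_mul, one_mul, mul_assoc,
        ← mul_assoc (X 1), h3, smul_mul_assoc, mul_assoc (X 0 ^ s), ← pow_succ', mul_smul_comm]
    rw [this]
    exact Submodule.smul_mem _ _ (Submodule.smul_mem _ _ (om_mem _ _ _ _))
  | succ w =>
    have h3 : X 1 * X 3 = (T (-(dd b c 2 : ℤ)) : Coef) • X 2 ^ dd b c 2 + 1 := h.exch' hb hc 2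
    have : X 1 * om X u (w + 1) s t = (T (-(2 * u)) : Coef) •
        ((T (-(dd b c 2 : ℤ)) : Coef) • om X (u + dd b c 2) w s t + om X u w s t) := by
      unfold om
      rw [← mul_assoc, h2, smul_mul_assoc, pow_succ' (X 3), mul_assoc, mul_assoc (X 3),
        ← mul_assoc (X 1) (X 3), h3, add_mul, one_mul, mul_add, smul_mul_assoc, mul_smul_comm,
        ← mul_assoc (X 2 ^ u) (X 2 ^ dd b c 2), ← pow_add]
    rw [this]
    exact Submodule.smul_mem _ _ (Submodule.add_mem _ (Submodule.smul_mem _ _ (om_mem _ _ _ _))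
      (om_mem _ _ _ _))

lemma rel03 (h : IsClusterSeq b c X) (hb : 1 ≤ b) (hc : 1 ≤ c) : ∃ κ : Coef,
    X 0 * X 3 = (T 2 : Coef) • (X 3 * X 0) +
      κ • (X 1 ^ (dd b c 1 - 1) * X 2 ^ (dd b c 2 - 1)) := by
  set d1 := dd b c 1 with hd1
  set d2 := dd b c 2 with hd2
  have hd1' : 1 ≤ d1 := dd_pos hb hc 1
  have hd2' : 1 ≤ d2 := dd_pos hb hc 2
  obtain ⟨p, hp⟩ : ∃ p, d1 = p + 1 := ⟨d1 - 1, by omega⟩
  obtain ⟨r, hr⟩ : ∃ r, d2 = r + 1 := ⟨d2 - 1, by omega⟩
  have e1 : X 2 * X 0 = (T (d1 : ℤ) : Coef) • X 1 ^ d1 + 1 := h.exch 1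
  have e2 : X 3 * X 1 = (T (d2 : ℤ) : Coef) • X 2 ^ d2 + 1 := h.exch 2
  have q12 : X 2 * X 1 = (T 2 : Coef) • (X 1 * X 2) := h.q hb hc 1
  have q01 : X 1 * X 0 = (T 2 : Coef) • (X 0 * X 1) := h.q hb hc 0
  have q23 : X 3 * X 2 = (T 2 : Coef) • (X 2 * X 3) := h.q hb hc 2
  refine ⟨T ((d1 : ℤ) + d2) * (1 - T (2 * d1 * d2)) * T (-(2 * (p : ℤ) + 2 * d2)), ?_⟩
  have hp' : d1 - 1 = p := by omega
  have hr' : d2 - 1 = r := by omega
  rw [hp', hr']
  apply mul_left_cancel₀ (h.ne hb hc 2)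
  apply mul_right_cancel₀ (h.ne hb hc 1)
  have a1 : X 2 * (X 0 * X 3) * X 1 =
      ((T (d1 : ℤ) : Coef) • X 1 ^ d1 + 1) * ((T (d2 : ℤ) : Coef) • X 2 ^ d2 + 1) := by
    rw [← e1, ← e2]
    simp only [mul_assoc]
  have a2 : X 2 * (X 3 * X 0) * X 1 = (T (-2) : Coef) •
      (((T (d2 : ℤ) : Coef) • X 2 ^ d2 + 1) * ((T (d1 : ℤ) : Coef) • X 1 ^ d1 + 1)) := by
    rw [← e1, ← e2]
    have : X 2 * (X 3 * X 0) * X 1 = (X 2 * X 3) * (X 0 * X 1) := by simp only [mul_assoc]
    rw [this, qinv q23, qinv q01, smul_mul_assoc, mul_smul_comm, T_smul_smul]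
    have h3 : X 3 * X 2 * (X 1 * X 0) = (T 2 : Coef) • (X 3 * X 1 * (X 2 * X 0)) := by
      have : X 3 * X 2 * (X 1 * X 0) = X 3 * (X 2 * X 1) * X 0 := by simp only [mul_assoc]
      rw [this, q12, mul_smul_comm, smul_mul_assoc]
      simp only [mul_assoc]
    rw [h3, T_smul_smul]
    norm_num
  have a3 : X 2 ^ d2 * X 1 ^ d1 = (T (2 * d1 * d2) : Coef) • (X 1 ^ d1 * X 2 ^ d2) :=
    qpow2 q12 d1 d2
  have a4 : X 2 * (X 1 ^ p * X 2 ^ r) * X 1 =
      (T (2 * (p : ℤ) + 2 * d2) : Coef) • (X 1 ^ d1 * X 2 ^ d2) := by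
    have b1 : X 2 * X 1 ^ p = (T (2 * p) : Coef) • (X 1 ^ p * X 2) := qpow q12 p
    have b2 : X 2 ^ d2 * X 1 = (T (2 * d2) : Coef) • (X 1 * X 2 ^ d2) := qpow' q12 d2
    rw [← mul_assoc, b1, smul_mul_assoc, mul_assoc (X 1 ^ p), ← pow_succ', ← hr, smul_mul_assoc,
      mul_assoc, b2, mul_smul_comm, T_smul_smul, ← mul_assoc, ← pow_succ, ← hp]
  rw [mul_add, add_mul, mul_smul_comm, mul_smul_comm, smul_mul_assoc, smul_mul_assoc, a1, a2, a4,
    T_smul_smul]
  have t0 : (2 : ℤ) + -2 = 0 := by norm_num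
  rw [t0, T_zero, one_smul]
  have t1 : T ((d1 : ℤ) + d2) * (1 - T (2 * d1 * d2)) * T (-(2 * (p : ℤ) + 2 * d2)) *
      T (2 * (p : ℤ) + 2 * d2) = (T ((d1 : ℤ) + d2) - T ((d1 : ℤ) + d2 + 2 * d1 * d2) : Coef) := by
    rw [mul_assoc, ← T_add, neg_add_cancel, T_zero, mul_one, mul_sub, mul_one, ← T_add]
  have t3 : (d1 : ℤ) + (d2 + 2 * d1 * d2) = d1 + d2 + 2 * d1 * d2 := by ring
  simp only [add_mul, mul_add, mul_one, one_mul, smul_mul_assoc, mul_smul_comm, a3, smul_add,
    smul_smul, t1, sub_smul, ← T_add, t3]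
  rw [add_comm (d2 : ℤ) (d1 : ℤ)]
  abel

lemma closed0 (h : IsClusterSeq b c X) (hb : 1 ≤ b) (hc : 1 ≤ c) (u w s t : ℕ) :
    X 0 * om X u w s t ∈ oSpan X := by
  cases u with
  | succ u =>
    have h3 : X 0 * X 2 = (T (-(dd b c 1 : ℤ)) : Coef) • X 1 ^ dd b c 1 + 1 := h.exch' hb hc 1
    have : X 0 * om X (u + 1) w s t = (T (-(dd b c 1 : ℤ)) : Coef) •
        (X 1 ^ dd b c 1 * om X u w s t) + om X u w s t := by
      unfold om
      rw [pow_succ', mul_assoc (X 2), ← mul_assoc (X 0), h3, add_mul, one_mul, smul_mul_assoc]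
    rw [this]
    exact Submodule.add_mem _ (Submodule.smul_mem _ _
      (pow_mul_mem_oSpan (closed1 h hb hc) _ (om_mem _ _ _ _))) (om_mem _ _ _ _)
  | zero =>
    induction w with
    | zero =>
      have : X 0 * om X 0 0 s t = om X 0 0 (s + 1) t := by
        unfold om
        simp only [pow_zero, one_mul]
        rw [← mul_assoc, ← pow_succ']
      rw [this]
      exact om_mem _ _ _ _
    | succ w ih =>
      obtain ⟨κ, hκ⟩ := rel03 h hb hc
      have : X 0 * om X 0 (w + 1) s t = (T 2 : Coef) • (X 3 * (X 0 * om X 0 w s t)) +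
          κ • (X 1 ^ (dd b c 1 - 1) * (X 2 ^ (dd b c 2 - 1) * om X 0 w s t)) := by
        have h1 : om X 0 (w + 1) s t = X 3 * om X 0 w s t := by
          unfold om
          simp only [pow_zero, one_mul]
          rw [pow_succ', mul_assoc]
        rw [h1, ← mul_assoc, hκ, add_mul, smul_mul_assoc, smul_mul_assoc]
        simp only [mul_assoc]
      rw [this]
      refine Submodule.add_mem _ (Submodule.smul_mem _ _ (mul_mem_oSpan (closed3 h hb hc) ih))
        (Submodule.smul_mem _ _ (pow_mul_mem_oSpan (closed1 h hb hc) _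
          (pow_mul_mem_oSpan closed2 _ (om_mem _ _ _ _))))

lemma clusterAlgebra_le_oSpan (h : IsClusterSeq b c X) (hb : 1 ≤ b) (hc : 1 ≤ c) {y : F}
    (hy : y ∈ clusterAlgebra X) : y ∈ oSpan X := by
  have h1 := clusterAlgebra_le h hb hc hy
  clear hy
  have h2 : ∀ z ∈ oSpan X, y * z ∈ oSpan X := by
    unfold A4 at h1
    induction h1 using Algebra.adjoin_induction with
    | mem x hx =>
      intro z hz
      simp only [Set.mem_insert_iff, Set.mem_singleton_iff] at hx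
      rcases hx with rfl | rfl | rfl | rfl
      · exact mul_mem_oSpan (closed0 h hb hc) hz
      · exact mul_mem_oSpan (closed1 h hb hc) hz
      · exact mul_mem_oSpan closed2 hz
      · exact mul_mem_oSpan (closed3 h hb hc) hz
    | algebraMap r =>
      intro z hz
      rw [← Algebra.smul_def]
      exact Submodule.smul_mem _ _ hz
    | add x y _ _ hx hy =>
      intro z hz
      rw [add_mul]
      exact Submodule.add_mem _ (hx z hz) (hy z hz)
    | mul x y _ _ hx hy =>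
      intro z hz
      rw [mul_assoc]
      exact hx _ (hy z hz)
  have h3 : (1 : F) ∈ oSpan X := by
    have : om X 0 0 0 0 = 1 := by simp [om]
    rw [← this]
    exact om_mem _ _ _ _
  simpa using h2 1 h3

/-- The standard monomial attached to `a ∈ ℤ²`. -/
noncomputable def stm (X : ℤ → F) (a : ℤ × ℤ) : F :=
  mon X 2 ((-a.2).toNat : ℤ) (a.1.toNat : ℤ) * mon X 0 (a.2.toNat : ℤ) ((-a.1).toNat : ℤ)

lemma stm_eq (a : ℤ × ℤ) : ∃ k : ℤ, stm X a =
    (T k : Coef) • om X (-a.2).toNat a.1.toNat a.2.toNat (-a.1).toNat := by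
  refine ⟨((-a.2).toNat : ℤ) * (a.1.toNat : ℤ) + (a.2.toNat : ℤ) * ((-a.1).toNat : ℤ), ?_⟩
  unfold stm mon om
  simp only [zpow_natCast]
  rw [smul_mul_assoc, mul_smul_comm, T_smul_smul, mul_assoc]
  norm_num

lemma om_mem_stm (h : IsClusterSeq b c X) (hb : 1 ≤ b) (hc : 1 ≤ c) (n : ℕ) :
    ∀ u w s t : ℕ, s + w = n → om X u w s t ∈ Submodule.span Coef (Set.range (stm X)) := by
  induction n using Nat.strong_induction_on with
  | _ n ih =>
    intro u w s t hn
    have e1 : X 2 * X 0 = (T (dd b c 1 : ℤ) : Coef) • X 1 ^ dd b c 1 + 1 := h.exch 1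
    have e2 : X 3 * X 1 = (T (dd b c 2 : ℤ) : Coef) • X 2 ^ dd b c 2 + 1 := h.exch 2
    have q01 : X 1 * X 0 = (T 2 : Coef) • (X 0 * X 1) := h.q hb hc 0
    have q23 : X 3 * X 2 = (T 2 : Coef) • (X 2 * X 3) := h.q hb hc 2
    by_cases h1 : 1 ≤ u ∧ 1 ≤ s
    · obtain ⟨u, rfl⟩ : ∃ u', u = u' + 1 := ⟨u - 1, by omega⟩
      obtain ⟨s, rfl⟩ : ∃ s', s = s' + 1 := ⟨s - 1, by omega⟩
      have c1 : X 2 * X 3 ^ w = (T (-(2 * w)) : Coef) • (X 3 ^ w * X 2) := qinv (qpow' q23 w)
      have c2 : X 1 ^ dd b c 1 * X 0 ^ s =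
          (T (2 * s * dd b c 1) : Coef) • (X 0 ^ s * X 1 ^ dd b c 1) := qpow2 q01 s _
      have : om X (u + 1) w (s + 1) t = (T (-(2 * w)) : Coef) •
          ((T (dd b c 1 : ℤ) : Coef) • (T (2 * s * dd b c 1) : Coef) •
            om X u w s (dd b c 1 + t) + om X u w s t) := by
        unfold om
        calc X 2 ^ (u + 1) * (X 3 ^ w * (X 0 ^ (s + 1) * X 1 ^ t))
            = X 2 ^ u * ((X 2 * X 3 ^ w) * (X 0 * (X 0 ^ s * X 1 ^ t))) := by
              rw [pow_succ (X 2), pow_succ' (X 0)]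
              simp only [mul_assoc]
          _ = (T (-(2 * w)) : Coef) • (X 2 ^ u * (X 3 ^ w * ((X 2 * X 0) * (X 0 ^ s * X 1 ^ t)))) := by
              rw [c1, smul_mul_assoc, mul_smul_comm]
              simp only [mul_assoc]
          _ = _ := by
              rw [e1, add_mul, one_mul, smul_mul_assoc, ← mul_assoc (X 1 ^ dd b c 1), c2,
                smul_mul_assoc, mul_assoc (X 0 ^ s), ← pow_add]
              simp only [mul_add, mul_smul_comm]
      rw [this]
      exact Submodule.smul_mem _ _ (Submodule.add_mem _ (Submodule.smul_mem _ _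
        (Submodule.smul_mem _ _ (ih (s + w) (by omega) _ _ _ _ rfl)))
        (ih (s + w) (by omega) _ _ _ _ rfl))
    · by_cases h2 : 1 ≤ w ∧ 1 ≤ t
      · obtain ⟨w, rfl⟩ : ∃ w', w = w' + 1 := ⟨w - 1, by omega⟩
        obtain ⟨t, rfl⟩ : ∃ t', t = t' + 1 := ⟨t - 1, by omega⟩
        have c1 : X 0 ^ s * X 1 = (T (-(2 * s)) : Coef) • (X 1 * X 0 ^ s) := qinv (qpow q01 s)
        have c2 : X 3 ^ w * X 2 ^ dd b c 2 =
            (T (2 * dd b c 2 * w) : Coef) • (X 2 ^ dd b c 2 * X 3 ^ w) := qpow2 q23 _ w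
        have : om X u (w + 1) s (t + 1) = (T (-(2 * s)) : Coef) •
            ((T (dd b c 2 : ℤ) : Coef) • (T (2 * dd b c 2 * w) : Coef) •
              om X (u + dd b c 2) w s t + om X u w s t) := by
          unfold om
          calc X 2 ^ u * (X 3 ^ (w + 1) * (X 0 ^ s * X 1 ^ (t + 1)))
              = X 2 ^ u * (X 3 ^ w * (X 3 * ((X 0 ^ s * X 1) * X 1 ^ t))) := by
                rw [pow_succ (X 3), pow_succ' (X 1)]
                simp only [mul_assoc]
            _ = (T (-(2 * s)) : Coef) • (X 2 ^ u * (X 3 ^ w * ((X 3 * X 1) * (X 0 ^ s * X 1 ^ t)))) := by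
                rw [c1, smul_mul_assoc, mul_smul_comm, mul_smul_comm, mul_smul_comm]
                simp only [mul_assoc]
            _ = _ := by
                rw [e2, add_mul, one_mul, smul_mul_assoc, mul_add, mul_smul_comm,
                  ← mul_assoc (X 3 ^ w) (X 2 ^ dd b c 2), c2, smul_mul_assoc, mul_add,
                  mul_smul_comm, mul_smul_comm, mul_assoc (X 2 ^ dd b c 2),
                  ← mul_assoc (X 2 ^ u) (X 2 ^ dd b c 2), ← pow_add]
        rw [this]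
        exact Submodule.smul_mem _ _ (Submodule.add_mem _ (Submodule.smul_mem _ _
          (Submodule.smul_mem _ _ (ih (s + w) (by omega) _ _ _ _ rfl)))
          (ih (s + w) (by omega) _ _ _ _ rfl))
      · obtain ⟨k, hk⟩ := stm_eq (X := X) ((w : ℤ) - t, (s : ℤ) - u)
        have f1 : (-((s : ℤ) - u)).toNat = u := by omega
        have f2 : ((w : ℤ) - t).toNat = w := by omega
        have f3 : ((s : ℤ) - u).toNat = s := by omega
        have f4 : (-((w : ℤ) - t)).toNat = t := by omega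
        simp only [f1, f2, f3, f4] at hk
        have h5 : om X u w s t = (T (-k) : Coef) • stm X ((w : ℤ) - t, (s : ℤ) - u) :=
          T_smul_eq_iff.mp hk
        rw [h5]
        exact Submodule.smul_mem _ _ (Submodule.subset_span ⟨_, rfl⟩)

lemma clusterAlgebra_le_stm (h : IsClusterSeq b c X) (hb : 1 ≤ b) (hc : 1 ≤ c) {y : F}
    (hy : y ∈ clusterAlgebra X) : y ∈ Submodule.span Coef (Set.range (stm X)) := by
  have h1 := clusterAlgebra_le_oSpan h hb hc hy
  have h2 : oSpan X ≤ Submodule.span Coef (Set.range (stm X)) := by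
    unfold oSpan
    rw [Submodule.span_le]
    rintro _ ⟨u, w, s, t, rfl⟩
    exact om_mem_stm h hb hc _ u w s t rfl
  exact h2 h1

end Seq

end Pool.Agent.W423.QC
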