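import Pool.Agent.W423.QC.Span

/-!
# Laurent expansions and nonnegativity
-/

set_option autoImplicit false

namespace Pool.Agent.W423.QC

open LaurentPolynomial

universe u

/-! ### The augmentation of `ℤ[v, v⁻¹]` -/

/-- The specialisation `v = 1`. -/
noncomputable def eps : Coef →+* ℤ := eval₂ (RingHom.id ℤ) 1

lemma eps_T (k : ℤ) : eps (T k) = 1 := by
  simp [eps]

lemma eps_eq_sum (f : Coef) : eps f = f.coeff.sum (fun _ n => n) := by
  induction f using LaurentPolynomial.induction_on' with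
  | add p q hp hq =>
    rw [map_add, hp, hq, AddMonoidAlgebra.coeff_add, Finsupp.sum_add_index' (by simp) (by simp)]
  | C_mul_T n a =>
    rw [← single_eq_C_mul_T]
    have : (AddMonoidAlgebra.single n a : Coef).coeff = Finsupp.single n a := rfl
    rw [this, Finsupp.sum_single_index rfl, single_eq_C_mul_T, map_mul, eps_T, mul_one]
    simp [eps]

lemma eps_nonneg {f : Coef} (hf : NonNeg f) : 0 ≤ eps f := by
  rw [eps_eq_sum]
  exact Finset.sum_nonneg fun k _ => hf k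

lemma eq_zero_of_eps {f : Coef} (hf : NonNeg f) (h : eps f = 0) : f = 0 := by
  rw [eps_eq_sum, Finsupp.sum, Finset.sum_eq_zero_iff_of_nonneg (fun k _ => hf k)] at h
  ext k
  by_cases hk : k ∈ f.coeff.support
  · exact h k hk
  · simpa using hk

lemma eps_pos {f : Coef} (hf : NonNeg f) (h : f ≠ 0) : 0 < eps f :=
  lt_of_le_of_ne (eps_nonneg hf) fun h0 => h (eq_zero_of_eps hf h0.symm)

lemma eq_T_of_eps {f : Coef} (hf : NonNeg f) (h : eps f = 1) : ∃ k : ℤ, f = T k := by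
  have h0 : f ≠ 0 := by
    rintro rfl
    simp at h
  obtain ⟨k, hk⟩ : ∃ k, f.coeff k ≠ 0 := by
    by_contra hcon
    push Not at hcon
    exact h0 (by ext k; exact hcon k)
  refine ⟨k, ?_⟩
  have h1 : 1 ≤ f.coeff k := by
    have := hf k
    omega
  have h2 : eps (f - T k) = 0 := by rw [map_sub, h, eps_T, sub_self]
  have h3 : NonNeg (f - T k) := by
    intro l
    rw [AddMonoidAlgebra.coeff_sub, Finsupp.sub_apply, T_apply]
    split_ifs with hl
    · subst hl; omega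
    · have := hf l; omega
  exact sub_eq_zero.mp (eq_zero_of_eps h3 h2)

lemma nonneg_mul_T {f : Coef} {k : ℤ} (hf : NonNeg (f * T k)) : NonNeg f := by
  intro l
  have h1 := hf (l + k)
  have h2 : (f * T k).coeff (l + k) = f.coeff l := by
    unfold T
    rw [AddMonoidAlgebra.coeff_mul_single_eq_coeff_mul (m₂ := l)]
    · rw [mul_one]
    · intro a _
      simp
  rwa [h2] at h1

variable {F : Type u} [DivisionRing F] [Algebra Coef F] {b c : ℕ} {X : ℤ → F}

/-- The monomials in the initial cluster. -/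
noncomputable def xm (X : ℤ → F) (a : ℤ × ℤ) : F := mon X 1 a.1 a.2

lemma xm_eq (a : ℤ × ℤ) : xm X a = (T (a.1 * a.2) : Coef) • (X 1 ^ a.1 * X 2 ^ a.2) := rfl

lemma xm_mul (h : IsClusterSeq b c X) (a a' : ℤ × ℤ) :
    xm X a * xm X a' = (T (a.2 * a'.1 - a.1 * a'.2) : Coef) • xm X (a + a') := by
  have h1 := qzpow h.ne_one h.ne_two h.qcomm a'.1 a.2
  rw [xm_eq, xm_eq, xm_eq, smul_mul_assoc, mul_smul_comm, T_smul_smul, T_smul_smul]
  have h2 : X 1 ^ a.1 * X 2 ^ a.2 * (X 1 ^ a'.1 * X 2 ^ a'.2) =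
      X 1 ^ a.1 * (X 2 ^ a.2 * X 1 ^ a'.1) * X 2 ^ a'.2 := by simp only [mul_assoc]
  rw [h2, h1, mul_smul_comm, smul_mul_assoc, T_smul_smul]
  have h3 : X 1 ^ a.1 * (X 1 ^ a'.1 * X 2 ^ a.2) * X 2 ^ a'.2 =
      X 1 ^ (a + a').1 * X 2 ^ (a + a').2 := by
    rw [Prod.fst_add, Prod.snd_add, zpow_add₀ h.ne_one, zpow_add₀ h.ne_two]
    simp only [mul_assoc]
  rw [h3]
  congr 2
  simp only [Prod.fst_add, Prod.snd_add]
  ring

/-- `T k` as a unit. -/
noncomputable def Tu (k : ℤ) : Coefˣ :=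
  ⟨T k, T (-k), by rw [← T_add, add_neg_cancel, T_zero], by rw [← T_add, neg_add_cancel, T_zero]⟩

lemma xm_indep (h : IsClusterSeq b c X) : LinearIndependent Coef (xm X) := by
  exact h.torus.units_smul (fun a : ℤ × ℤ => Tu (a.1 * a.2))

lemma xm_zero : xm X 0 = 1 := by
  simp [xm_eq]

variable (X) in
lemma X1_eq : X 1 = xm X (1, 0) := by simp [xm_eq]

variable (X) in
lemma X2_eq : X 2 = xm X (0, 1) := by simp [xm_eq]

lemma xm_zero_right (n : ℕ) : xm X ((n : ℤ), 0) = X 1 ^ n := by simp [xm_eq]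

lemma xm_zero_left (n : ℕ) : xm X (0, (n : ℤ)) = X 2 ^ n := by simp [xm_eq]

lemma X0_eq (h : IsClusterSeq b c X) : X 0 = xm X (0, -1) + xm X ((b : ℤ), -1) := by
  apply mul_left_cancel₀ h.ne_two
  have e := h.odd 1 odd_one
  rw [show (1 : ℤ) + 1 = 2 by norm_num, show (1 : ℤ) - 1 = 0 by norm_num] at e
  rw [e, mul_add, X2_eq X, xm_mul h, xm_mul h]
  simp only [Prod.mk_add_mk, add_zero, zero_add, add_neg_cancel, mul_zero, zero_mul, sub_zero,
    one_mul, T_zero, one_smul]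
  rw [xm_zero_right]
  have : xm X (0, 0) = 1 := xm_zero
  rw [this, add_comm]

lemma X3_eq (h : IsClusterSeq b c X) : X 3 = xm X (-1, 0) + xm X (-1, (c : ℤ)) := by
  apply mul_right_cancel₀ h.ne_one
  have e := h.even 2 even_two
  rw [show (2 : ℤ) + 1 = 3 by norm_num, show (2 : ℤ) - 1 = 1 by norm_num] at e
  rw [e, add_mul, X1_eq X, xm_mul h, xm_mul h]
  simp only [Prod.mk_add_mk, add_zero, neg_add_cancel, mul_zero, sub_zero,
    mul_one, T_zero, one_smul]
  rw [xm_zero_left]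
  have : xm X (0, 0) = 1 := xm_zero
  rw [this, add_comm]

/-! ### Elements with a leading term -/

/-- The cone below `a`, without its apex. -/
def coneS (b c : ℕ) (a : ℤ × ℤ) : Set (ℤ × ℤ) :=
  {m | ∃ p q : ℕ, (p ≠ 0 ∨ q ≠ 0) ∧ m = (b * p - a.1, c * q - a.2)}

/-- `y` is pointed at `a`, up to a power of `v`. -/
def Pt (b c : ℕ) (X : ℤ → F) (a : ℤ × ℤ) (y : F) : Prop :=
  ∃ k : ℤ, ∃ z ∈ Submodule.span Coef (xm X '' coneS b c a), y = (T k : Coef) • xm X (-a) + z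

lemma span_mul (h : IsClusterSeq b c X) {S S' S'' : Set (ℤ × ℤ)}
    (hS : ∀ m ∈ S, ∀ m' ∈ S', m + m' ∈ S'') {y y' : F}
    (hy : y ∈ Submodule.span Coef (xm X '' S)) (hy' : y' ∈ Submodule.span Coef (xm X '' S')) :
    y * y' ∈ Submodule.span Coef (xm X '' S'') := by
  have h1 : y * y' ∈ Submodule.span Coef (xm X '' S) * Submodule.span Coef (xm X '' S') :=
    Submodule.mul_mem_mul hy hy'
  rw [Submodule.span_mul_span] at h1
  refine Submodule.span_le.mpr ?_ h1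
  rintro _ ⟨_, ⟨m, hm, rfl⟩, _, ⟨m', hm', rfl⟩, rfl⟩
  show xm X m * xm X m' ∈ _
  rw [xm_mul h]
  exact Submodule.smul_mem _ _ (Submodule.subset_span ⟨_, hS m hm m' hm', rfl⟩)

lemma xm_mem_span {S : Set (ℤ × ℤ)} {m : ℤ × ℤ} (hm : m ∈ S) :
    xm X m ∈ Submodule.span Coef (xm X '' S) := Submodule.subset_span ⟨m, hm, rfl⟩

lemma coneS_add {a a' m m' : ℤ × ℤ} (hm : m ∈ coneS b c a) (hm' : m' ∈ coneS b c a') :
    m + m' ∈ coneS b c (a + a') := by
  obtain ⟨p, q, h1, rfl⟩ := hm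
  obtain ⟨p', q', h2, rfl⟩ := hm'
  refine ⟨p + p', q + q', by omega, ?_⟩
  ext
  · push_cast
    simp only [Prod.fst_add]
    ring
  · push_cast
    simp only [Prod.snd_add]
    ring

lemma coneS_apex_add {a a' m' : ℤ × ℤ} (hm' : m' ∈ coneS b c a') :
    -a + m' ∈ coneS b c (a + a') := by
  obtain ⟨p', q', h2, rfl⟩ := hm'
  refine ⟨p', q', h2, ?_⟩
  ext
  · simp only [Prod.fst_add, Prod.fst_neg]
    ring
  · simp only [Prod.snd_add, Prod.snd_neg]
    ring

lemma coneS_add_apex {a a' m : ℤ × ℤ} (hm : m ∈ coneS b c a) :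
    m + -a' ∈ coneS b c (a + a') := by
  obtain ⟨p', q', h2, rfl⟩ := hm
  refine ⟨p', q', h2, ?_⟩
  ext
  · simp only [Prod.fst_add, Prod.fst_neg]
    ring
  · simp only [Prod.snd_add, Prod.snd_neg]
    ring

lemma Pt.mul (h : IsClusterSeq b c X) {a a' : ℤ × ℤ} {y y' : F} (hy : Pt b c X a y)
    (hy' : Pt b c X a' y') : Pt b c X (a + a') (y * y') := by
  obtain ⟨k, z, hz, rfl⟩ := hy
  obtain ⟨k', z', hz', rfl⟩ := hy'
  have h1 := xm_mul h (-a) (-a')
  rw [← neg_add] at h1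
  refine ⟨k + k' + ((-a).2 * (-a').1 - (-a).1 * (-a').2),
    ((T k : Coef) • xm X (-a)) * z' + z * ((T k' : Coef) • xm X (-a')) + z * z', ?_, ?_⟩
  · refine Submodule.add_mem _ (Submodule.add_mem _ ?_ ?_) ?_
    · rw [smul_mul_assoc]
      exact Submodule.smul_mem _ _ (span_mul h (S := {-a})
        (fun m hm m' hm' => by rw [hm]; exact coneS_apex_add hm') (xm_mem_span rfl) hz')
    · rw [mul_smul_comm]
      exact Submodule.smul_mem _ _ (span_mul h (S' := {-a'})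
        (fun m hm m' hm' => by rw [hm']; exact coneS_add_apex hm) hz (xm_mem_span rfl))
    · exact span_mul h (fun m hm m' hm' => coneS_add hm hm') hz hz'
  · have h2 : (T k : Coef) • xm X (-a) * (T k' : Coef) • xm X (-a') =
        (T (k + k' + ((-a).2 * (-a').1 - (-a).1 * (-a').2)) : Coef) • xm X (-(a + a')) := by
      rw [smul_mul_assoc, mul_smul_comm, h1, T_smul_smul, T_smul_smul]
    rw [add_mul, mul_add, mul_add, h2]
    abel

lemma Pt.one : Pt b c X 0 1 := ⟨0, 0, Submodule.zero_mem _, by simp [xm_zero]⟩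

lemma Pt.pow (h : IsClusterSeq b c X) {a : ℤ × ℤ} {y : F} (hy : Pt b c X a y) (n : ℕ) :
    Pt b c X (n • a) (y ^ n) := by
  induction n with
  | zero => rw [zero_smul, pow_zero]; exact Pt.one
  | succ n ih => rw [succ_nsmul, pow_succ]; exact ih.mul h hy

lemma Pt.smul {a : ℤ × ℤ} {y : F} (hy : Pt b c X a y) (l : ℤ) :
    Pt b c X a ((T l : Coef) • y) := by
  obtain ⟨k, z, hz, rfl⟩ := hy
  exact ⟨l + k, (T l : Coef) • z, Submodule.smul_mem _ _ hz, by rw [smul_add, T_smul_smul]⟩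

lemma Pt_xm (a : ℤ × ℤ) : Pt b c X a (xm X (-a)) :=
  ⟨0, 0, Submodule.zero_mem _, by simp⟩

lemma Pt_X1 : Pt b c X (-1, 0) (X 1) := by
  have := Pt_xm (b := b) (c := c) (X := X) (-1, 0)
  rw [X1_eq X]
  simpa using this

lemma Pt_X2 : Pt b c X (0, -1) (X 2) := by
  have := Pt_xm (b := b) (c := c) (X := X) (0, -1)
  rw [X2_eq X]
  simpa using this

lemma Pt_X0 (h : IsClusterSeq b c X) : Pt b c X (0, 1) (X 0) := by
  refine ⟨0, xm X ((b : ℤ), -1), xm_mem_span ⟨1, 0, by simp, by simp⟩, ?_⟩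
  rw [X0_eq h]
  simp

lemma Pt_X3 (h : IsClusterSeq b c X) : Pt b c X (1, 0) (X 3) := by
  refine ⟨0, xm X (-1, (c : ℤ)), xm_mem_span ⟨0, 1, by simp, by simp⟩, ?_⟩
  rw [X3_eq h]
  simp

lemma Pt_stm (h : IsClusterSeq b c X) (a : ℤ × ℤ) : Pt b c X a (stm X a) := by
  obtain ⟨k, hk⟩ := stm_eq (X := X) a
  rw [hk]
  apply Pt.smul
  unfold om
  have h1 := ((Pt_X2 (b := b) (c := c) (X := X)).pow h (-a.2).toNat).mul h
    (((Pt_X3 h).pow h a.1.toNat).mul h (((Pt_X0 h).pow h a.2.toNat).mul h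
      ((Pt_X1 (b := b) (c := c) (X := X)).pow h (-a.1).toNat)))
  convert h1 using 1
  ext
  · simp
    omega
  · simp
    omega

/-- Laurent polynomial with given coefficients. -/
noncomputable def LL (X : ℤ → F) : (ℤ × ℤ →₀ Coef) →ₗ[Coef] F :=
  Finsupp.linearCombination Coef (xm X)

lemma LL_inj (h : IsClusterSeq b c X) : Function.Injective (LL X) := xm_indep h

lemma LL_single (m : ℤ × ℤ) (f : Coef) : LL X (Finsupp.single m f) = f • xm X m := by
  simp [LL]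

lemma exists_rep_of_span {S : Set (ℤ × ℤ)} {z : F}
    (hz : z ∈ Submodule.span Coef (xm X '' S)) :
    ∃ f : ℤ × ℤ →₀ Coef, z = LL X f ∧ ∀ m, f m ≠ 0 → m ∈ S := by
  rw [Finsupp.mem_span_image_iff_linearCombination] at hz
  obtain ⟨f, hf, rfl⟩ := hz
  refine ⟨f, rfl, fun m hm => ?_⟩
  rw [Finsupp.mem_supported] at hf
  exact hf (Finsupp.mem_support_iff.mpr hm)

lemma apex_notMem {a : ℤ × ℤ} (hb : 1 ≤ b) (hc : 1 ≤ c) : -a ∉ coneS b c a := by
  rintro ⟨p, q, h1, h2⟩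
  have h3 := congrArg Prod.fst h2
  have h4 := congrArg Prod.snd h2
  simp only [Prod.fst_neg, Prod.snd_neg] at h3 h4
  have h5 : (b : ℤ) * p = 0 := by omega
  have h6 : (c : ℤ) * q = 0 := by omega
  have h7 : (b : ℤ) ≠ 0 := by omega
  have h8 : (c : ℤ) ≠ 0 := by omega
  rw [mul_eq_zero] at h5 h6
  omega

lemma Pt.rep {a : ℤ × ℤ} {y : F} (hb : 1 ≤ b) (hc : 1 ≤ c) (hy : Pt b c X a y) :
    ∃ (k : ℤ) (f : ℤ × ℤ →₀ Coef), y = LL X f ∧ f (-a) = T k ∧
      ∀ m, f m ≠ 0 → m = -a ∨ m ∈ coneS b c a := by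
  obtain ⟨k, z, hz, rfl⟩ := hy
  obtain ⟨f, rfl, hf⟩ := exists_rep_of_span hz
  have h0 : f (-a) = 0 := by
    by_contra hne
    exact apex_notMem hb hc (hf _ hne)
  refine ⟨k, Finsupp.single (-a) (T k) + f, ?_, ?_, ?_⟩
  · rw [map_add, LL_single]
  · rw [Finsupp.add_apply, Finsupp.single_eq_same, h0, add_zero]
  · intro m hm
    by_cases hma : m = -a
    · exact Or.inl hma
    · right
      apply hf
      rw [Finsupp.add_apply, Finsupp.single_eq_of_ne hma, zero_add] at hm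
      exact hm

end Pool.Agent.W423.QC
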